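import Mathlib

/-!
A smooth compactly supported Baumslag-Solitar pair on the line.
-/

set_option autoImplicit false

open Set Filter Topology

namespace Pool.Agent.H61.BSPair

noncomputable section

/-- the double exponential `exp (exp (1/(1-x)))` -/
def F (x : ℝ) : ℝ := Real.exp (Real.exp (1 - x)⁻¹)

/-- the correction term, zero for `x ≤ 1/4`, equal to `F x - x` for `x ≥ 1/2` -/
def B (x : ℝ) : ℝ := Real.smoothTransition (4 * x - 1) * (F x - x)

/-- the chart `(-1,1) → ℝ` -/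
def psi (x : ℝ) : ℝ := x + B x - B (-x)

lemma psi_neg (x : ℝ) : psi (-x) = - psi x := by
  unfold psi; rw [neg_neg]; ring

lemma B_zero {x : ℝ} (hx : x ≤ 1/4) : B x = 0 := by
  unfold B
  rw [Real.smoothTransition.zero_of_nonpos (by linarith), zero_mul]

lemma B_big {x : ℝ} (hx : 1/2 ≤ x) : B x = F x - x := by
  unfold B
  rw [Real.smoothTransition.one_of_one_le (by linarith), one_mul]

lemma psi_small {x : ℝ} (hx : |x| ≤ 1/4) : psi x = x := by
  unfold psi
  rw [abs_le] at hx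
  rw [B_zero hx.2, B_zero (by linarith)]; ring

lemma psi_big {x : ℝ} (hx : 1/2 ≤ x) : psi x = F x := by
  unfold psi
  rw [B_big hx, B_zero (x := -x) (by linarith)]; ring

lemma exp_sub_le {a b : ℝ} (ha : 0 ≤ a) (hab : a ≤ b) : b - a ≤ Real.exp b - Real.exp a := by
  have h1 : Real.exp b = Real.exp a * Real.exp (b - a) := by
    rw [← Real.exp_add]; congr 1; ring
  have h2 : b - a + 1 ≤ Real.exp (b - a) := Real.add_one_le_exp _
  have h3 : 1 ≤ Real.exp a := Real.one_le_exp ha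
  rw [h1]
  nlinarith [mul_nonneg (sub_nonneg.2 h3) (sub_nonneg.2 hab), Real.exp_pos a]

lemma F_sub_le {x y : ℝ} (hx : 0 ≤ x) (hxy : x ≤ y) (hy : y < 1) : y - x ≤ F y - F x := by
  unfold F
  have hx1 : 0 < 1 - x := by linarith
  have hy1 : 0 < 1 - y := by linarith
  have h0 : y - x ≤ (1 - y)⁻¹ - (1 - x)⁻¹ := by
    rw [inv_sub_inv hy1.ne' hx1.ne']
    rw [le_div_iff₀ (mul_pos hy1 hx1)]
    nlinarith [mul_nonneg (sub_nonneg.2 hxy) hx, mul_nonneg (sub_nonneg.2 hxy) (hx.trans hxy),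
      mul_nonneg (mul_nonneg (sub_nonneg.2 hxy) hx) hy1.le]
  have h1 := exp_sub_le (a := (1 - x)⁻¹) (b := (1 - y)⁻¹) (by positivity) (by linarith)
  have h2 := exp_sub_le (a := Real.exp (1 - x)⁻¹) (b := Real.exp (1 - y)⁻¹) (by positivity)
    (by linarith)
  linarith

lemma F_ge {x : ℝ} : (1 - x)⁻¹ ≤ F x := by
  unfold F
  have h1 := Real.add_one_le_exp ((1 - x)⁻¹)
  have h2 := Real.add_one_le_exp (Real.exp (1 - x)⁻¹)
  linarith

lemma F_sub_nonneg {x : ℝ} (hx0 : 0 ≤ x) (hx : x < 1) : 0 ≤ F x - x := by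
  have h := F_sub_le le_rfl hx0 hx
  have h0 : 0 < F 0 := Real.exp_pos _
  linarith

lemma B_mono {x y : ℝ} (hxy : x ≤ y) (hy : y < 1) : B x ≤ B y := by
  rcases le_or_gt x (1/4) with hx | hx
  · rw [B_zero hx]
    rcases le_or_gt y (1/4) with hy' | hy'
    · rw [B_zero hy']
    · exact mul_nonneg (Real.smoothTransition.nonneg _) (F_sub_nonneg (by linarith) hy)
  · unfold B
    apply mul_le_mul
    · exact Real.smoothTransition.monotone (by linarith)
    · have := F_sub_le (by linarith : (0:ℝ) ≤ x) hxy hy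
      linarith
    · exact F_sub_nonneg (by linarith) (by linarith)
    · exact Real.smoothTransition.nonneg _

lemma psi_sub_le {x y : ℝ} (hx : -1 < x) (hxy : x ≤ y) (hy : y < 1) : y - x ≤ psi y - psi x := by
  unfold psi
  have h1 := B_mono hxy hy
  have h2 := B_mono (neg_le_neg hxy) (by linarith)
  linarith

lemma contDiffAt_F {x : ℝ} (hx : x < 1) : ContDiffAt ℝ ((⊤ : ℕ∞) : WithTop ℕ∞) F x := by
  unfold F
  have : (1 - x) ≠ 0 := by linarith
  exact (((contDiffAt_const.sub contDiffAt_id).inv this).exp).exp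

lemma contDiffAt_B {x : ℝ} (hx : x < 1) : ContDiffAt ℝ ((⊤ : ℕ∞) : WithTop ℕ∞) B x := by
  unfold B
  refine ContDiffAt.mul ?_ ((contDiffAt_F hx).sub contDiffAt_id)
  exact (Real.smoothTransition.contDiff.contDiffAt).comp x
    ((contDiffAt_const.mul contDiffAt_id).sub contDiffAt_const)

lemma contDiffAt_psi {x : ℝ} (hx : x ∈ Ioo (-1:ℝ) 1) :
    ContDiffAt ℝ ((⊤ : ℕ∞) : WithTop ℕ∞) psi x := by
  unfold psi
  refine (contDiffAt_id.add (contDiffAt_B hx.2)).sub ?_
  exact ContDiffAt.comp x (contDiffAt_B (by linarith [hx.1])) contDiffAt_id.neg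

lemma psi_lt {x y : ℝ} (hx : -1 < x) (hxy : x < y) (hy : y < 1) : psi x < psi y := by
  have := psi_sub_le hx hxy.le hy
  linarith

lemma psi_strictMono : StrictMono (fun x : Ioo (-1:ℝ) 1 => psi x.1) :=
  fun x y hxy => psi_lt x.2.1 hxy y.2.2

lemma psi_surj_nonneg {y : ℝ} (hy : 0 ≤ y) : ∃ x ∈ Ioo (-1:ℝ) 1, psi x = y := by
  set b : ℝ := 1 - (y + 2)⁻¹ with hb
  have hy2 : (0:ℝ) < y + 2 := by linarith
  have h1 : (y + 2)⁻¹ ≤ 1/2 := by
    rw [inv_eq_one_div]
    exact one_div_le_one_div_of_le (by norm_num) (by linarith)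
  have h2 : 0 < (y + 2)⁻¹ := by positivity
  have hb1 : 1/2 ≤ b := by linarith
  have hb2 : b < 1 := by linarith
  have h3 : y ≤ psi b := by
    rw [psi_big hb1]
    have := F_ge (x := b)
    rw [hb] at this ⊢
    rw [sub_sub_cancel, inv_inv] at this
    linarith
  have h4 : psi 0 ≤ y := by rw [psi_small (by norm_num)]; exact hy
  have h5 : ContinuousOn psi (Icc 0 b) := fun z hz =>
    (contDiffAt_psi ⟨by linarith [hz.1], by linarith [hz.2]⟩).continuousAt.continuousWithinAt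
  obtain ⟨x, hx, hxy⟩ := intermediate_value_Icc (by linarith : (0:ℝ) ≤ b) h5 ⟨h4, h3⟩
  exact ⟨x, ⟨by linarith [hx.1], by linarith [hx.2]⟩, hxy⟩

lemma psi_surj (y : ℝ) : ∃ x ∈ Ioo (-1:ℝ) 1, psi x = y := by
  rcases le_total 0 y with hy | hy
  · exact psi_surj_nonneg hy
  · obtain ⟨x, hx, h⟩ := psi_surj_nonneg (y := -y) (by linarith)
    exact ⟨-x, ⟨by linarith [hx.2], by linarith [hx.1]⟩, by rw [psi_neg, h, neg_neg]⟩

/-- the chart as an order isomorphism -/
def e : Ioo (-1:ℝ) 1 ≃o ℝ :=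
  StrictMono.orderIsoOfSurjective _ psi_strictMono (fun y => by
    obtain ⟨x, hx, h⟩ := psi_surj y
    exact ⟨⟨x, hx⟩, h⟩)

lemma e_apply (x : Ioo (-1:ℝ) 1) : e x = psi x.1 := rfl

/-- the inverse of the chart -/
def phi (y : ℝ) : ℝ := (e.symm y).1

lemma phi_mem (y : ℝ) : phi y ∈ Ioo (-1:ℝ) 1 := (e.symm y).2

lemma psi_phi (y : ℝ) : psi (phi y) = y := by
  have := e.apply_symm_apply y
  rwa [e_apply] at this

lemma phi_psi {x : ℝ} (hx : x ∈ Ioo (-1:ℝ) 1) : phi (psi x) = x := by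
  have := e.symm_apply_apply ⟨x, hx⟩
  exact congrArg Subtype.val this

lemma phi_eq {x y : ℝ} (hx : x ∈ Ioo (-1:ℝ) 1) (h : psi x = y) : phi y = x := by
  rw [← h, phi_psi hx]

lemma phi_strictMono : StrictMono phi := fun x y hxy => by
  have := e.symm.strictMono hxy
  exact this

lemma phi_neg (y : ℝ) : phi (-y) = - phi y := by
  have h := phi_mem y
  apply phi_eq ⟨by linarith [h.2], by linarith [h.1]⟩
  rw [psi_neg, psi_phi]

/-- the chart as a partial homeomorphism of the line -/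
def ph : OpenPartialHomeomorph ℝ ℝ where
  toFun := psi
  invFun := phi
  source := Ioo (-1) 1
  target := univ
  map_source' := fun _ _ => mem_univ _
  map_target' := fun y _ => phi_mem y
  left_inv' := fun _ hx => phi_psi hx
  right_inv' := fun y _ => psi_phi y
  open_source := isOpen_Ioo
  open_target := isOpen_univ
  continuousOn_toFun := fun _ hx => (contDiffAt_psi hx).continuousAt.continuousWithinAt
  continuousOn_invFun := by
    have : Continuous phi := continuous_subtype_val.comp e.symm.continuous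
    exact this.continuousOn

lemma deriv_psi_pos {x : ℝ} (hx : x ∈ Ioo (-1:ℝ) 1) : 0 < deriv psi x := by
  have hd : DifferentiableAt ℝ psi x := (contDiffAt_psi hx).differentiableAt (by simp)
  have h1 : Tendsto (fun t : ℝ => t⁻¹ * (psi (x + t) - psi x)) (𝓝[>] 0) (𝓝 (deriv psi x)) := by
    have := hd.hasDerivAt.tendsto_slope_zero_right
    simpa [smul_eq_mul] using this
  have h2 : ∀ᶠ t in 𝓝[>] (0:ℝ), 1 ≤ t⁻¹ * (psi (x + t) - psi x) := by
    have h3 : ∀ᶠ t in 𝓝[>] (0:ℝ), t < 1 - x :=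
      nhdsWithin_le_nhds (Iio_mem_nhds (by linarith [hx.2]))
    filter_upwards [h3, self_mem_nhdsWithin] with t ht ht0
    have ht0' : (0:ℝ) < t := ht0
    have := psi_sub_le hx.1 (by linarith : x ≤ x + t) (by linarith)
    rw [inv_mul_eq_div, le_div_iff₀ ht0']
    linarith
  have := ge_of_tendsto h1 h2
  linarith

lemma contDiff_phi : ContDiff ℝ ((⊤ : ℕ∞) : WithTop ℕ∞) phi := by
  rw [contDiff_iff_contDiffAt]
  intro y
  have hy : (ph.symm y) ∈ Ioo (-1:ℝ) 1 := phi_mem y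
  have hd : DifferentiableAt ℝ psi (ph.symm y) := (contDiffAt_psi hy).differentiableAt (by simp)
  exact ph.contDiffAt_symm_deriv (deriv_psi_pos hy).ne' (mem_univ y) hd.hasDerivAt
    (contDiffAt_psi hy)

/-- conjugate a map of the line into `(-1,1)` and extend it by the identity -/
def ext (g : ℝ → ℝ) (x : ℝ) : ℝ := if |x| < 1 then phi (g (psi x)) else x

lemma mem_iff {x : ℝ} : x ∈ Ioo (-1:ℝ) 1 ↔ |x| < 1 := abs_lt.symm

lemma ext_in (g : ℝ → ℝ) {x : ℝ} (hx : |x| < 1) : ext g x = phi (g (psi x)) := if_pos hx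

lemma ext_out (g : ℝ → ℝ) {x : ℝ} (hx : 1 ≤ |x|) : ext g x = x := if_neg (not_lt.2 hx)

lemma ext_comp (g g' : ℝ → ℝ) (x : ℝ) : ext g (ext g' x) = ext (g ∘ g') x := by
  rcases lt_or_ge |x| 1 with hx | hx
  · rw [ext_in g' hx, ext_in (g ∘ g') hx, ext_in g (mem_iff.1 (phi_mem _)), psi_phi]
    rfl
  · rw [ext_out g' hx, ext_out _ hx, ext_out _ hx]

lemma ext_id (x : ℝ) : ext id x = x := by
  rcases lt_or_ge |x| 1 with hx | hx
  · rw [ext_in _ hx]; exact phi_psi (mem_iff.2 hx)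
  · exact ext_out _ hx

lemma ext_strictMono {g : ℝ → ℝ} (hg : StrictMono g) : StrictMono (ext g) := by
  intro x y hxy
  rcases lt_or_ge |x| 1 with hx | hx
  · rw [ext_in g hx]
    rcases lt_or_ge |y| 1 with hy | hy
    · rw [ext_in g hy]
      apply phi_strictMono
      apply hg
      exact psi_lt (mem_iff.2 hx).1 hxy (mem_iff.2 hy).2
    · rw [ext_out g hy]
      have h1 := (phi_mem (g (psi x))).2
      rcases le_abs'.1 hy with h | h
      · linarith [(mem_iff.2 hx).1]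
      · linarith
  · rw [ext_out g hx]
    rcases lt_or_ge |y| 1 with hy | hy
    · rw [ext_in g hy]
      have h1 := (phi_mem (g (psi y))).1
      rcases le_abs'.1 hx with h | h
      · linarith
      · linarith [(mem_iff.2 hy).2]
    · rw [ext_out g hy]; exact hxy

/-- the extension of an order isomorphism -/
def extIso (g : ℝ ≃o ℝ) : ℝ ≃o ℝ where
  toFun := ext g
  invFun := ext g.symm
  left_inv := fun x => by
    rw [ext_comp]
    have : (g.symm : ℝ → ℝ) ∘ (g : ℝ → ℝ) = id := by funext z; simp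
    rw [this, ext_id]
  right_inv := fun x => by
    rw [ext_comp]
    have : (g : ℝ → ℝ) ∘ (g.symm : ℝ → ℝ) = id := by funext z; simp
    rw [this, ext_id]
  map_rel_iff' := fun {x y} => (ext_strictMono g.strictMono).le_iff_le

lemma contDiffAt_ext_in {g : ℝ → ℝ} (hg : ContDiff ℝ ((⊤ : ℕ∞) : WithTop ℕ∞) g) {x : ℝ}
    (hx : |x| < 1) : ContDiffAt ℝ ((⊤ : ℕ∞) : WithTop ℕ∞) (ext g) x := by
  have h1 : ContDiffAt ℝ ((⊤ : ℕ∞) : WithTop ℕ∞) (fun z => phi (g (psi z))) x :=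
    contDiff_phi.contDiffAt.comp x
      (hg.contDiffAt.comp x (contDiffAt_psi (mem_iff.2 hx)))
  apply h1.congr_of_eventuallyEq
  have : {z : ℝ | |z| < 1} ∈ 𝓝 x := (isOpen_lt continuous_abs continuous_const).mem_nhds hx
  filter_upwards [this] with z hz
  exact ext_in g hz

lemma contDiffAt_ext_out {g : ℝ → ℝ} {x : ℝ}
    (hx : 1 < |x|) : ContDiffAt ℝ ((⊤ : ℕ∞) : WithTop ℕ∞) (ext g) x := by
  have h1 : ContDiffAt ℝ ((⊤ : ℕ∞) : WithTop ℕ∞) (fun z : ℝ => z) x := contDiffAt_id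
  apply h1.congr_of_eventuallyEq
  have : {z : ℝ | 1 < |z|} ∈ 𝓝 x := (isOpen_lt continuous_const continuous_abs).mem_nhds hx
  filter_upwards [this] with z hz
  exact ext_out g (le_of_lt hz)

lemma contDiffAt_ext_one {g a : ℝ → ℝ} (ha : ContDiffAt ℝ ((⊤ : ℕ∞) : WithTop ℕ∞) a 0)
    (hg : ∀ᶠ t in 𝓝[>] (0:ℝ), g (Real.exp (Real.exp t⁻¹)) = Real.exp (Real.exp t⁻¹ + a t)) :
    ContDiffAt ℝ ((⊤ : ℕ∞) : WithTop ℕ∞) (ext g) 1 := by
  set P : ℝ → ℝ := fun t => 1 + expNegInvGlue t * a t with hP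
  have hPc : ContDiffAt ℝ ((⊤ : ℕ∞) : WithTop ℕ∞) P 0 :=
    contDiffAt_const.add (expNegInvGlue.contDiff.contDiffAt.mul ha)
  have hP0 : P 0 = 1 := by simp [hP]
  have hPpos : ∀ᶠ t in 𝓝 (0:ℝ), 0 < P t :=
    hPc.continuousAt.eventually (lt_mem_nhds (by rw [hP0]; norm_num))
  set L : ℝ → ℝ := fun t => Real.log (P t) with hL
  have hLc : ContDiffAt ℝ ((⊤ : ℕ∞) : WithTop ℕ∞) L 0 := hPc.log (by rw [hP0]; norm_num)
  have hL0 : L 0 = 0 := by simp [hL, hP0]
  set D : ℝ → ℝ := fun t => 1 + t * L t with hD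
  have hDc : ContDiffAt ℝ ((⊤ : ℕ∞) : WithTop ℕ∞) D 0 :=
    contDiffAt_const.add (contDiffAt_id.mul hLc)
  have hD0 : D 0 = 1 := by simp [hD]
  have hDpos : ∀ᶠ t in 𝓝 (0:ℝ), 0 < D t :=
    hDc.continuousAt.eventually (lt_mem_nhds (by rw [hD0]; norm_num))
  set G : ℝ → ℝ := fun t => t / D t with hG
  have hGc : ContDiffAt ℝ ((⊤ : ℕ∞) : WithTop ℕ∞) G 0 :=
    contDiffAt_id.div hDc (by rw [hD0]; norm_num)
  have hG0 : G 0 = 0 := by simp [hG]
  have hGlt : ∀ᶠ t in 𝓝 (0:ℝ), G t < 1/2 :=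
    hGc.continuousAt.eventually (gt_mem_nhds (by rw [hG0]; norm_num))
  -- the explicit formula
  have key : ∀ᶠ t in 𝓝 (0:ℝ), ext g (1 - t) = 1 - G t := by
    have hg' := eventually_nhdsWithin_iff.1 hg
    have hlt : ∀ᶠ t in 𝓝 (0:ℝ), t < 1/2 := gt_mem_nhds (by norm_num)
    filter_upwards [hg', hPpos, hDpos, hGlt, hlt] with t h1 h2 h3 h4 h5
    rcases le_or_gt t 0 with ht | ht
    · have : G t = t := by
        simp [hG, hD, hL, hP, expNegInvGlue.zero_of_nonpos ht]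
      rw [this]
      exact ext_out g (by rw [abs_of_nonneg] <;> linarith)
    · have h6 := h1 ht
      have hG1 : 0 < G t := div_pos ht h3
      have hx : |1 - t| < 1 := by rw [abs_of_nonneg] <;> linarith
      rw [ext_in g hx]
      apply phi_eq ⟨by linarith, by linarith⟩
      rw [psi_big (by linarith), psi_big (by linarith)]
      unfold F
      rw [sub_sub_cancel, sub_sub_cancel, h6]
      congr 1
      have h7 : (G t)⁻¹ = t⁻¹ + L t := by
        simp only [hG, hD]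
        rw [inv_div]
        field_simp
      have h8 : Real.exp t⁻¹ * expNegInvGlue t = 1 := by
        have : expNegInvGlue t = Real.exp (-t⁻¹) := by
          unfold expNegInvGlue
          rw [if_neg (not_le.2 ht)]
        rw [this, ← Real.exp_add]
        simp
      rw [h7, Real.exp_add]
      simp only [hL]
      rw [Real.exp_log h2]
      simp only [hP]
      linear_combination (a t) * h8
  have h1 : ContDiffAt ℝ ((⊤ : ℕ∞) : WithTop ℕ∞) (fun x : ℝ => 1 - G (1 - x)) 1 := by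
    refine contDiffAt_const.sub ?_
    have h2 : ContDiffAt ℝ ((⊤ : ℕ∞) : WithTop ℕ∞) G (1 - 1) := by simpa using hGc
    exact ContDiffAt.comp (1:ℝ) h2 (contDiffAt_const.sub contDiffAt_id)
  apply h1.congr_of_eventuallyEq
  have h2 : Tendsto (fun x : ℝ => 1 - x) (𝓝 1) (𝓝 0) := by
    have : ContinuousAt (fun x : ℝ => 1 - x) 1 := by fun_prop
    simpa [ContinuousAt] using this
  filter_upwards [h2.eventually key] with x hx
  rw [← hx, sub_sub_cancel]

lemma ext_neg (g : ℝ → ℝ) (x : ℝ) : ext g x = - ext (fun y => - g (-y)) (-x) := by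
  rcases lt_or_ge |x| 1 with hx | hx
  · rw [ext_in g hx, ext_in _ (by rwa [abs_neg])]
    rw [phi_neg, psi_neg, neg_neg, neg_neg]
  · rw [ext_out g hx, ext_out _ (by rwa [abs_neg]), neg_neg]

/-- the growth condition at infinity -/
def Good (g : ℝ → ℝ) : Prop :=
  ∃ a : ℝ → ℝ, ContDiffAt ℝ ((⊤ : ℕ∞) : WithTop ℕ∞) a 0 ∧
    ∀ᶠ t in 𝓝[>] (0:ℝ), g (Real.exp (Real.exp t⁻¹)) = Real.exp (Real.exp t⁻¹ + a t)

lemma contDiff_ext {g : ℝ → ℝ} (hg : ContDiff ℝ ((⊤ : ℕ∞) : WithTop ℕ∞) g)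
    (h1 : Good g) (h2 : Good (fun y => - g (-y))) :
    ContDiff ℝ ((⊤ : ℕ∞) : WithTop ℕ∞) (ext g) := by
  rw [contDiff_iff_contDiffAt]
  intro x
  rcases lt_trichotomy |x| 1 with hx | hx | hx
  · exact contDiffAt_ext_in hg hx
  · rcases eq_or_eq_neg_of_abs_eq hx with h | h
    · obtain ⟨a, ha, hga⟩ := h1
      rw [h]
      exact contDiffAt_ext_one ha hga
    · obtain ⟨a, ha, hga⟩ := h2
      have h3 := contDiffAt_ext_one (g := fun y => - g (-y)) ha hga
      have h4 : (ext g) = fun x => - ext (fun y => - g (-y)) (-x) := by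
        funext x; exact ext_neg g x
      rw [h4, h]
      apply ContDiffAt.neg
      have h5 : ContDiffAt ℝ ((⊤ : ℕ∞) : WithTop ℕ∞) (ext (fun y => - g (-y))) (-(-1)) := by
        rwa [neg_neg]
      exact ContDiffAt.comp (-1:ℝ) h5 contDiffAt_id.neg
  · exact contDiffAt_ext_out hx

lemma good_mul {c : ℝ} (hc : 0 < c) : Good (fun y => c * y) := by
  refine ⟨fun _ => Real.log c, contDiffAt_const, Eventually.of_forall fun t => ?_⟩
  simp only
  rw [Real.exp_add, Real.exp_log hc, mul_comm]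

lemma good_add (s : ℝ) : Good (fun y => y + s) := by
  set Q : ℝ → ℝ := fun t => 1 + s * expNegInvGlue (expNegInvGlue t) with hQ
  have hQc : ContDiffAt ℝ ((⊤ : ℕ∞) : WithTop ℕ∞) Q 0 :=
    contDiffAt_const.add (contDiffAt_const.mul
      (expNegInvGlue.contDiff.comp expNegInvGlue.contDiff).contDiffAt)
  have hQ0 : Q 0 = 1 := by simp [hQ]
  have hQpos : ∀ᶠ t in 𝓝 (0:ℝ), 0 < Q t :=
    hQc.continuousAt.eventually (lt_mem_nhds (by rw [hQ0]; norm_num))
  refine ⟨fun t => Real.log (Q t), hQc.log (by rw [hQ0]; norm_num), ?_⟩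
  filter_upwards [nhdsWithin_le_nhds hQpos, self_mem_nhdsWithin] with t ht ht0
  have ht0' : (0:ℝ) < t := ht0
  rw [Real.exp_add, Real.exp_log ht]
  have h1 : expNegInvGlue t = Real.exp (-t⁻¹) := by
    unfold expNegInvGlue
    rw [if_neg (not_le.2 ht0')]
  have h2 : expNegInvGlue (expNegInvGlue t) = Real.exp (-Real.exp t⁻¹) := by
    rw [h1]
    unfold expNegInvGlue
    rw [if_neg (not_le.2 (Real.exp_pos _)), ← Real.exp_neg (-t⁻¹), neg_neg]
  have h3 : Real.exp (Real.exp t⁻¹) * Real.exp (-Real.exp t⁻¹) = 1 := by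
    rw [← Real.exp_add]; simp
  simp only [hQ]
  rw [h2]
  linear_combination (-s) * h3

lemma contDiff_mul {c : ℝ} (hc : 0 < c) :
    ContDiff ℝ ((⊤ : ℕ∞) : WithTop ℕ∞) (ext (fun y => c * y)) := by
  refine contDiff_ext (contDiff_const.mul contDiff_id) (good_mul hc) ?_
  have : (fun y : ℝ => - (c * (-y))) = fun y => c * y := by funext y; ring
  rw [this]
  exact good_mul hc

lemma contDiff_add (s : ℝ) :
    ContDiff ℝ ((⊤ : ℕ∞) : WithTop ℕ∞) (ext (fun y => y + s)) := by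
  refine contDiff_ext (contDiff_id.add contDiff_const) (good_add s) ?_
  have : (fun y : ℝ => - ((-y) + s)) = fun y => y + (-s) := by funext y; ring
  rw [this]
  exact good_add (-s)

/-- multiplication by `2` -/
def mulIso : ℝ ≃o ℝ := OrderIso.mulLeft₀ (2:ℝ) (by norm_num)

lemma iterate_add (n : ℕ) {x : ℝ} (hx : |x| < 1) :
    (ext (fun y => y + 1))^[n] x = phi (psi x + n) := by
  induction n with
  | zero => simp [phi_psi (mem_iff.2 hx)]
  | succ n ih =>
    rw [Function.iterate_succ_apply', ih, ext_in _ (mem_iff.1 (phi_mem _)), psi_phi]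
    congr 1
    push_cast
    ring

theorem exists_BS_pair : ∃ h T : ℝ ≃o ℝ,
    ContDiff ℝ ((⊤ : ℕ∞) : WithTop ℕ∞) h ∧ ContDiff ℝ ((⊤ : ℕ∞) : WithTop ℕ∞) h.symm ∧
    ContDiff ℝ ((⊤ : ℕ∞) : WithTop ℕ∞) T ∧ ContDiff ℝ ((⊤ : ℕ∞) : WithTop ℕ∞) T.symm ∧
    (∀ x, 1 ≤ |x| → h x = x) ∧ (∀ x, 1 ≤ |x| → T x = x) ∧
    (∀ x, |x| ≤ 1/8 → h x = 2 * x) ∧ (∀ x, h (T x) = T (T (h x))) ∧
    (∀ x, |x| < 1 → x < T x) ∧ (∃ N : ℕ, 1/2 ≤ T^[N] (-1/2)) := by
  have eT : (extIso (OrderIso.addRight (1:ℝ)) : ℝ → ℝ) = ext (fun y => y + 1) := rfl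
  have eTs : ((extIso (OrderIso.addRight (1:ℝ))).symm : ℝ → ℝ) = ext (fun y => y + (-1)) := rfl
  have eh : (extIso mulIso : ℝ → ℝ) = ext (fun y => 2 * y) := rfl
  have ehs : ((extIso mulIso).symm : ℝ → ℝ) = ext (fun y => (2:ℝ)⁻¹ * y) := rfl
  refine ⟨extIso mulIso, extIso (OrderIso.addRight (1:ℝ)), ?_, ?_, ?_, ?_, ?_, ?_, ?_, ?_, ?_, ?_⟩
  · rw [eh]; exact contDiff_mul (by norm_num)
  · rw [ehs]; exact contDiff_mul (by norm_num)
  · rw [eT]; exact contDiff_add _
  · rw [eTs]; exact contDiff_add _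
  · intro x hx; rw [eh]; exact ext_out _ hx
  · intro x hx; rw [eT]; exact ext_out _ hx
  · intro x hx
    rw [eh, ext_in _ (by linarith), psi_small (by linarith)]
    have h2 : |2 * x| ≤ 1/4 := by rw [abs_mul, abs_two]; linarith
    exact phi_eq (mem_iff.2 (by linarith)) (psi_small h2)
  · intro x
    rw [eh, eT, ext_comp, ext_comp, ext_comp]
    congr 1
    funext y
    simp only [Function.comp]
    ring
  · intro x hx
    rw [eT, ext_in _ hx]
    conv_lhs => rw [← phi_psi (mem_iff.2 hx)]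
    exact phi_strictMono (by linarith)
  · obtain ⟨N, hN⟩ := exists_nat_ge (psi (1/2) - psi (-1/2))
    refine ⟨N, ?_⟩
    rw [eT, iterate_add N (by rw [abs_lt]; constructor <;> norm_num)]
    have h1 : phi (psi (1/2)) = 1/2 := phi_psi ⟨by norm_num, by norm_num⟩
    rw [← h1]
    exact phi_strictMono.monotone (by linarith)

end

end Pool.Agent.H61.BSPair
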