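import Mathlib

/-!
Abstract construction behind the answer to MP_e27c09_lc.

Every natural number `a` codes a finite family `K a` of finite sets of natural numbers.
-/

set_option autoImplicit false

open Finset

namespace Pool.Agent.H61.Intro

/-- truncation of a finite set below `h` -/
def tr (V : Finset ℕ) (h : ℕ) : Finset ℕ := V.filter (· < h)

theorem mem_tr {V : Finset ℕ} {h x : ℕ} : x ∈ tr V h ↔ x ∈ V ∧ x < h := by
  simp [tr]

theorem tr_subset (V : Finset ℕ) (h : ℕ) : tr V h ⊆ V := filter_subset _ _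

theorem tr_mono {V W : Finset ℕ} (hVW : V ⊆ W) (h : ℕ) : tr V h ⊆ tr W h :=
  filter_subset_filter _ hVW

theorem tr_tr_of_le (V : Finset ℕ) {h k : ℕ} (hk : h ≤ k) : tr (tr V k) h = tr V h := by
  ext x; simp only [mem_tr]; constructor
  · rintro ⟨⟨a, _⟩, c⟩; exact ⟨a, c⟩
  · rintro ⟨a, c⟩; exact ⟨⟨a, lt_of_lt_of_le c hk⟩, c⟩

theorem tr_eq_self {V : Finset ℕ} {h : ℕ} (hV : ∀ x ∈ V, x < h) : tr V h = V := by
  ext x; simp only [mem_tr]; exact ⟨fun a => a.1, fun a => ⟨a, hV x a⟩⟩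

theorem tr_union (V W : Finset ℕ) (h : ℕ) : tr (V ∪ W) h = tr V h ∪ tr W h := by
  ext x; simp only [mem_tr, mem_union]; tauto

theorem tr_eq_empty {V : Finset ℕ} {h : ℕ} (hV : ∀ x ∈ V, h ≤ x) : tr V h = ∅ := by
  ext x; simp only [mem_tr, Finset.notMem_empty, iff_false, not_and, not_lt]
  exact fun a => hV x a

variable (K : ℕ → Finset (Finset ℕ))

/-- worlds descending from the family `𝒱` (below `h`) using the new elements `H` -/
def Desc (h : ℕ) (𝒱 : Set (Finset ℕ)) (H : Finset ℕ) : Set (Finset ℕ) :=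
  {V | tr V h ∈ 𝒱 ∧ ∀ x ∈ V, h ≤ x → x ∈ H ∧ tr V x ∈ K x}

/-- `H` is an admissible block of new elements over `(h, 𝒱, 𝒰)` -/
def Block (h : ℕ) (𝒱 : Set (Finset ℕ)) (𝒰 : Finset (Finset ℕ)) (H : Finset ℕ) : Prop :=
  ∀ a ∈ H, h ≤ a ∧ IsChain (· ⊆ ·) (K a : Set (Finset ℕ)) ∧
    (∀ V ∈ K a, (∀ x ∈ V, x < a) ∧ V ∈ Desc K h 𝒱 H) ∧ ∀ U ∈ 𝒰, U ∪ tr H a ∈ K a

/-- states -/
structure St where
  h : ℕ
  V : Set (Finset ℕ)
  U : Finset (Finset ℕ)
  M : Finset ℕ
  hV : ∀ v ∈ V, ∀ x ∈ v, x < h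
  hU : ∀ u ∈ U, u ∈ V
  hchain : IsChain (· ⊆ ·) (U : Set (Finset ℕ))
  hM : M ∈ V
  hMU : ∀ u ∈ U, M ⊆ u

/-- extension through a given block -/
def ExtH (H : Finset ℕ) (p q : St) : Prop :=
  Block K p.h p.V p.U H ∧ (∀ a ∈ H, a < q.h) ∧ p.h ≤ q.h ∧ p.V ⊆ q.V ∧
    q.V ⊆ Desc K p.h p.V H ∧ (∀ u ∈ p.U, u ∪ H ∈ q.U) ∧ tr q.M p.h = p.M

/-- extension -/
def Ext (p q : St) : Prop := ∃ H, ExtH K H p q

variable {K}

theorem Ext.h_le {p q : St} (e : Ext K p q) : p.h ≤ q.h := by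
  obtain ⟨H, e⟩ := e; exact e.2.2.1

theorem Ext.V_sub {p q : St} (e : Ext K p q) : p.V ⊆ q.V := by
  obtain ⟨H, e⟩ := e; exact e.2.2.2.1

theorem Ext.tr_M {p q : St} (e : Ext K p q) : tr q.M p.h = p.M := by
  obtain ⟨H, e⟩ := e; exact e.2.2.2.2.2.2

theorem Ext.M_sub {p q : St} (e : Ext K p q) : p.M ⊆ q.M := by
  rw [← e.tr_M]; exact tr_subset _ _

theorem Ext.tr_mem {p q : St} (e : Ext K p q) {v : Finset ℕ} (hv : v ∈ q.V) :
    tr v p.h ∈ p.V := by
  obtain ⟨H, e⟩ := e; exact (e.2.2.2.2.1 hv).1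

theorem Ext.refl (p : St) : Ext K p p := by
  refine ⟨∅, ?_, by simp, le_rfl, subset_rfl, ?_, by simp, tr_eq_self (p.hV _ p.hM)⟩
  · intro a ha; simp at ha
  · intro v hv
    refine ⟨by rwa [tr_eq_self (p.hV v hv)], fun x hx hx' => ?_⟩
    exact absurd (p.hV v hv x hx) (not_lt.2 hx')

theorem Ext.trans {p q r : St} (e : Ext K p q) (f : Ext K q r) : Ext K p r := by
  obtain ⟨H, hB, hH, hle, hVV, hVD, hUU, hM⟩ := e
  obtain ⟨H', hB', hH', hle', hVV', hVD', hUU', hM'⟩ := f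
  -- descent through both blocks
  have key : ∀ v, v ∈ Desc K q.h q.V H' → v ∈ Desc K p.h p.V (H ∪ H') := by
    intro v hv
    have h1 := hVD hv.1
    refine ⟨?_, ?_⟩
    · have := h1.1
      rwa [tr_tr_of_le _ hle] at this
    · intro x hx hpx
      by_cases hxq : q.h ≤ x
      · obtain ⟨h2, h3⟩ := hv.2 x hx hxq
        exact ⟨mem_union_right _ h2, h3⟩
      · have hxv : x ∈ tr v q.h := mem_tr.2 ⟨hx, not_le.1 hxq⟩
        obtain ⟨h2, h3⟩ := h1.2 x hxv hpx
        refine ⟨mem_union_left _ h2, ?_⟩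
        rwa [tr_tr_of_le _ (le_of_lt (not_le.1 hxq))] at h3
  refine ⟨H ∪ H', ?_, ?_, hle.trans hle', hVV.trans hVV', fun v hv => key v (hVD' hv), ?_, ?_⟩
  · intro a ha
    by_cases haH : a ∈ H
    · obtain ⟨h1, h2, h3, h4⟩ := hB a haH
      have hemp : tr H' a = ∅ := tr_eq_empty fun x hx =>
        (le_of_lt (hH a haH)).trans (hB' x hx).1
      refine ⟨h1, h2, fun V hV => ⟨(h3 V hV).1, (h3 V hV).2.1, fun x hx hx' => ?_⟩, ?_⟩
      · obtain ⟨h5, h6⟩ := (h3 V hV).2.2 x hx hx'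
        exact ⟨mem_union_left _ h5, h6⟩
      · intro U hU
        rw [tr_union, hemp, union_empty]
        exact h4 U hU
    · have haH' : a ∈ H' := (mem_union.1 ha).resolve_left haH
      obtain ⟨h1, h2, h3, h4⟩ := hB' a haH'
      refine ⟨hle.trans h1, h2, fun V hV => ⟨(h3 V hV).1, key V (h3 V hV).2⟩, ?_⟩
      intro U hU
      have h5 := h4 (U ∪ H) (hUU U hU)
      have h6 : tr H a = H := tr_eq_self fun x hx => lt_of_lt_of_le (hH x hx) h1
      rw [tr_union, h6, ← union_assoc]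
      exact h5
  · intro a ha
    rcases mem_union.1 ha with ha | ha
    · exact lt_of_lt_of_le (hH a ha) hle'
    · exact hH' a ha
  · intro u hu
    have := hUU' (u ∪ H) (hUU u hu)
    rwa [union_assoc] at this
  · rw [← tr_tr_of_le _ hle, hM', hM]

/-- the same state with another (smaller) main world -/
def St.nat (q : St) (v : Finset ℕ) (hv : v ∈ q.V) (hvM : v ⊆ q.M) : St where
  h := q.h
  V := q.V
  U := q.U
  M := v
  hV := q.hV
  hU := q.hU
  hchain := q.hchain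
  hM := hv
  hMU := fun u hu => hvM.trans (q.hMU u hu)

/-- the main world becomes mandatory, `v` becomes the main world -/
def St.virt (q : St) (v : Finset ℕ) (hv : v ∈ q.V) (hvM : v ⊆ q.M) : St where
  h := q.h
  V := q.V
  U := insert q.M q.U
  M := v
  hV := q.hV
  hU := fun u hu => by
    rcases mem_insert.1 hu with rfl | hu
    · exact q.hM
    · exact q.hU u hu
  hchain := by
    rw [coe_insert]
    exact q.hchain.insert fun u hu _ => Or.inl (q.hMU u hu)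
  hM := hv
  hMU := fun u hu => by
    rcases mem_insert.1 hu with rfl | hu
    · exact hvM
    · exact hvM.trans (q.hMU u hu)

theorem ext_nat {q q' : St} (e : Ext K q q') {v v' : Finset ℕ} (hv : v ∈ q.V) (hvM : v ⊆ q.M)
    (hv' : v' ∈ q'.V) (hvM' : v' ⊆ q'.M) (ht : tr v' q.h = v) :
    Ext K (q.nat v hv hvM) (q'.nat v' hv' hvM') := by
  obtain ⟨H, hB, hH, hle, hVV, hVD, hUU, _⟩ := e
  exact ⟨H, hB, hH, hle, hVV, hVD, hUU, ht⟩

theorem ext_virt (q : St) (v : Finset ℕ) (hv : v ∈ q.V) (hvM : v ⊆ q.M) :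
    Ext K (q.nat v hv hvM) (q.virt v hv hvM) := by
  obtain ⟨H, hB, hH, hle, hVV, hVD, hUU, hM⟩ := Ext.refl (K := K) (q.nat v hv hvM)
  refine ⟨H, hB, hH, hle, hVV, hVD, fun u hu => ?_, hM⟩
  exact mem_insert_of_mem (hUU u hu)

theorem ext_nat' {p q : St} (e : Ext K p q) {v : Finset ℕ} (hv : v ∈ q.V) (hvM : v ⊆ q.M)
    (ht : tr v p.h = p.M) : Ext K p (q.nat v hv hvM) := by
  obtain ⟨H, hB, hH, hle, hVV, hVD, hUU, _⟩ := e
  exact ⟨H, hB, hH, hle, hVV, hVD, hUU, ht⟩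

theorem desc_mono {h : ℕ} {A B : Set (Finset ℕ)} (hAB : A ⊆ B) (H : Finset ℕ) :
    Desc K h A H ⊆ Desc K h B H := fun _ hv => ⟨hAB hv.1, hv.2⟩

theorem mem_desc_of_mem (p : St) (H : Finset ℕ) {v : Finset ℕ} (hv : v ∈ p.V) :
    v ∈ Desc K p.h p.V H :=
  ⟨by rwa [tr_eq_self (p.hV v hv)], fun x hx hx' => absurd (p.hV v hv x hx) (not_lt.2 hx')⟩

theorem tr_union_block {p : St} {u H : Finset ℕ} (hu : u ∈ p.V) (hH : ∀ a ∈ H, p.h ≤ a) :
    tr (u ∪ H) p.h = u := by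
  rw [tr_union, tr_eq_self (p.hV u hu), tr_eq_empty hH, union_empty]

theorem union_mem_desc {p : St} {H : Finset ℕ} {U : Finset (Finset ℕ)}
    (hB : Block K p.h p.V U H) {u : Finset ℕ} (hu : u ∈ U) (huV : u ∈ p.V) :
    u ∪ H ∈ Desc K p.h p.V H := by
  refine ⟨?_, ?_⟩
  · rw [tr_union_block huV fun a ha => (hB a ha).1]; exact huV
  · intro x hx hpx
    have hxH : x ∈ H := by
      rcases mem_union.1 hx with h | h
      · exact absurd (p.hV u huV x h) (not_lt.2 hpx)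
      · exact h
    refine ⟨hxH, ?_⟩
    rw [tr_union, tr_eq_self fun y hy => lt_of_lt_of_le (p.hV u huV y hy) hpx]
    exact (hB x hxH).2.2.2 u hu

theorem lt_of_mem_desc {p : St} {H : Finset ℕ} {h' : ℕ} (hh : p.h ≤ h') (hH : ∀ a ∈ H, a < h')
    {w : Finset ℕ} (hw : w ∈ Desc K p.h p.V H) : ∀ x ∈ w, x < h' := by
  intro x hx
  by_cases hxp : p.h ≤ x
  · exact hH x (hw.2 x hx hxp).1
  · exact lt_of_lt_of_le (not_le.1 hxp) hh

/-- Add the block `H` to the main world and the mandatory worlds, and keep one more world `w`. -/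
def St.add (p : St) (H : Finset ℕ) (hB : Block K p.h p.V (insert p.M p.U) H) (h' : ℕ)
    (hh : p.h ≤ h') (hH : ∀ a ∈ H, a < h') (w : Finset ℕ) (hw : w ∈ Desc K p.h p.V H) : St where
  h := h'
  V := p.V ∪ insert w ((insert p.M p.U).image (fun u => u ∪ H) : Finset (Finset ℕ))
  U := p.U.image (fun u => u ∪ H)
  M := p.M ∪ H
  hV := by
    rintro v (hv | hv) x hx
    · exact lt_of_lt_of_le (p.hV v hv x hx) hh
    · rcases hv with rfl | hv
      · exact lt_of_mem_desc hh hH hw x hx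
      · obtain ⟨u, hu, rfl⟩ := mem_image.1 (mem_coe.1 hv)
        have huV : u ∈ p.V := by
          rcases mem_insert.1 hu with rfl | hu
          · exact p.hM
          · exact p.hU u hu
        exact lt_of_mem_desc hh hH (union_mem_desc hB hu huV) x hx
  hU := by
    intro v hv
    obtain ⟨u, hu, rfl⟩ := mem_image.1 hv
    exact Or.inr (Or.inr (mem_coe.2 (mem_image.2 ⟨u, mem_insert_of_mem hu, rfl⟩)))
  hchain := by
    intro a ha b hb _
    obtain ⟨u, hu, rfl⟩ := mem_image.1 (mem_coe.1 ha)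
    obtain ⟨u', hu', rfl⟩ := mem_image.1 (mem_coe.1 hb)
    rcases p.hchain.total (mem_coe.2 hu) (mem_coe.2 hu') with h | h
    · exact Or.inl (union_subset_union_left h)
    · exact Or.inr (union_subset_union_left h)
  hM := Or.inr (Or.inr (mem_coe.2 (mem_image.2 ⟨p.M, mem_insert_self _ _, rfl⟩)))
  hMU := by
    intro v hv
    obtain ⟨u, hu, rfl⟩ := mem_image.1 hv
    exact union_subset_union_left (p.hMU u hu)

theorem ext_add (p : St) (H : Finset ℕ) (hB : Block K p.h p.V (insert p.M p.U) H) (h' : ℕ)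
    (hh : p.h ≤ h') (hH : ∀ a ∈ H, a < h') (w : Finset ℕ) (hw : w ∈ Desc K p.h p.V H) :
    Ext K p (p.add H hB h' hh hH w hw) := by
  refine ⟨H, ?_, hH, hh, Set.subset_union_left, ?_, ?_, ?_⟩
  · intro a ha
    obtain ⟨h1, h2, h3, h4⟩ := hB a ha
    exact ⟨h1, h2, h3, fun U hU => h4 U (mem_insert_of_mem hU)⟩
  · rintro v (hv | hv)
    · exact mem_desc_of_mem p H hv
    · rcases hv with rfl | hv
      · exact hw
      · obtain ⟨u, hu, rfl⟩ := mem_image.1 (mem_coe.1 hv)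
        have huV : u ∈ p.V := by
          rcases mem_insert.1 hu with rfl | hu
          · exact p.hM
          · exact p.hU u hu
        exact union_mem_desc hB hu huV
  · intro u hu
    exact mem_image.2 ⟨u, hu, rfl⟩
  · exact tr_union_block p.hM fun a ha => (hB a ha).1

/-- Forget the alive worlds which are not needed. -/
def St.shrink (p q : St) (h' : ℕ) (hh : q.h ≤ h') (e : Ext K p q) : St where
  h := h'
  V := p.V ∪ insert q.M (q.U : Set (Finset ℕ))
  U := q.U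
  M := q.M
  hV := by
    rintro v (hv | hv) x hx
    · exact lt_of_lt_of_le (p.hV v hv x hx) (e.h_le.trans hh)
    · rcases hv with rfl | hv
      · exact lt_of_lt_of_le (q.hV _ q.hM x hx) hh
      · exact lt_of_lt_of_le (q.hV _ (q.hU v hv) x hx) hh
  hU := fun u hu => Or.inr (Or.inr hu)
  hchain := q.hchain
  hM := Or.inr (Or.inl rfl)
  hMU := q.hMU

theorem shrink_V_sub (p q : St) (h' : ℕ) (hh : q.h ≤ h') (e : Ext K p q) :
    (p.shrink q h' hh e).V ⊆ q.V := by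
  rintro v (hv | hv)
  · exact e.V_sub hv
  · rcases hv with rfl | hv
    · exact q.hM
    · exact q.hU v hv

theorem ext_shrink (p q : St) (h' : ℕ) (hh : q.h ≤ h') (e : Ext K p q) :
    Ext K p (p.shrink q h' hh e) := by
  have hsub := shrink_V_sub p q h' hh e
  obtain ⟨H, hB, hH, hle, hVV, hVD, hUU, hM⟩ := e
  exact ⟨H, hB, fun a ha => lt_of_lt_of_le (hH a ha) hh, hle.trans hh, Set.subset_union_left,
    fun v hv => hVD (hsub hv), hUU, hM⟩

theorem lift_shrink (p q : St) (e : Ext K p q) (r : St)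
    (f : Ext K (p.shrink q q.h le_rfl e) r) : ∃ r', Ext K q r' ∧ r'.M = r.M := by
  have hsub := shrink_V_sub p q q.h le_rfl e
  obtain ⟨H, hB, hH, hle, hVV, hVD, hUU, hM⟩ := f
  refine ⟨⟨r.h, q.V ∪ r.V, r.U, r.M, ?_, fun u hu => Or.inr (r.hU u hu), r.hchain, Or.inr r.hM,
    r.hMU⟩, ⟨H, ?_, hH, hle, Set.subset_union_left, ?_, hUU, hM⟩, rfl⟩
  · rintro v (hv | hv) x hx
    · exact lt_of_lt_of_le (q.hV v hv x hx) hle
    · exact r.hV v hv x hx
  · intro a ha
    obtain ⟨h1, h2, h3, h4⟩ := hB a ha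
    exact ⟨h1, h2, fun V hV => ⟨(h3 V hV).1, desc_mono hsub H (h3 V hV).2⟩, h4⟩
  · rintro v (hv | hv)
    · exact mem_desc_of_mem q H hv
    · exact desc_mono hsub H (hVD hv)

/-- the invariant: at most one alive trace below `b` does not contain the main trace -/
def Inv (p : St) : Prop := ∀ b ∈ p.M, ∀ v ∈ p.V, ∀ w ∈ p.V, b ∈ v → b ∈ w →
  ¬ tr p.M (b + 1) ⊆ v → ¬ tr p.M (b + 1) ⊆ w → tr v (b + 1) = tr w (b + 1)

/-- general step lemma for the invariant: if, apart from worlds which are alive in `p`, and worlds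
containing the main world, only one world `w₀` is added, the invariant persists. -/
theorem Inv.step {p q : St} (e : Ext K p q) (hI : Inv p) (w₀ : Finset ℕ)
    (hq : ∀ v ∈ q.V, v ∈ p.V ∨ q.M ⊆ v ∨ v = w₀) : Inv q := by
  intro b hb v hv w hw hbv hbw hv' hw'
  by_cases hbp : b < p.h
  · have hbM : b ∈ p.M := by rw [← e.tr_M]; exact mem_tr.2 ⟨hb, hbp⟩
    have h1 : ∀ v : Finset ℕ, tr (tr v p.h) (b + 1) = tr v (b + 1) := fun v => tr_tr_of_le _ hbp
    have h2 : tr q.M (b + 1) = tr p.M (b + 1) := by rw [← e.tr_M, h1]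
    have h3 : ∀ v : Finset ℕ, ¬ tr q.M (b + 1) ⊆ v → ¬ tr p.M (b + 1) ⊆ tr v p.h := by
      intro v hv h4
      apply hv
      rw [h2]
      exact h4.trans (tr_subset _ _)
    have := hI b hbM (tr v p.h) (e.tr_mem hv) (tr w p.h) (e.tr_mem hw) (mem_tr.2 ⟨hbv, hbp⟩)
      (mem_tr.2 ⟨hbw, hbp⟩) (h3 v hv') (h3 w hw')
    rwa [h1, h1] at this
  · have h4 : ∀ v ∈ q.V, b ∈ v → ¬ tr q.M (b + 1) ⊆ v → v = w₀ := by
      intro v hv hbv hv'
      rcases hq v hv with h | h | h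
      · exact absurd (p.hV v h b hbv) hbp
      · exact absurd ((tr_subset _ _).trans h) hv'
      · exact h
    rw [h4 v hv hbv hv', h4 w hw hbw hw']

theorem Inv.add {p : St} (hI : Inv p) (H : Finset ℕ) (hB : Block K p.h p.V (insert p.M p.U) H)
    (h' : ℕ) (hh : p.h ≤ h') (hH : ∀ a ∈ H, a < h') (w : Finset ℕ)
    (hw : w ∈ Desc K p.h p.V H) : Inv (p.add H hB h' hh hH w hw) := by
  refine Inv.step (ext_add p H hB h' hh hH w hw) hI w ?_
  rintro v (hv | hv)
  · exact Or.inl hv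
  · rcases hv with rfl | hv
    · exact Or.inr (Or.inr rfl)
    · obtain ⟨u, hu, rfl⟩ := mem_image.1 (mem_coe.1 hv)
      refine Or.inr (Or.inl ?_)
      have : p.M ⊆ u := by
        rcases mem_insert.1 hu with rfl | hu
        · exact subset_rfl
        · exact p.hMU u hu
      exact union_subset_union_left this

theorem Inv.shrink {p q : St} (hI : Inv p) (h' : ℕ) (hh : q.h ≤ h') (e : Ext K p q) :
    Inv (p.shrink q h' hh e) := by
  refine Inv.step (ext_shrink p q h' hh e) hI ∅ ?_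
  rintro v (hv | hv)
  · exact Or.inl hv
  · refine Or.inr (Or.inl ?_)
    rcases hv with rfl | hv
    · exact subset_rfl
    · exact q.hMU v hv

section requirement

variable (K) (G P : Set ℕ → Set ℕ)

/-- the main world is sound for the pair of operators -/
def Sound (M : Finset ℕ) : Prop := G M ⊆ (M : Set ℕ) ∧ P (G M) ⊆ (M : Set ℕ)

def NU (p : St) : Prop := ∀ q, Ext K p q → Sound G P q.M

def Beta (p : St) : Prop := ∀ q, Ext K p q → ∃ r, Ext K q r ∧ G r.M ≠ G q.M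

def Pers (q : St) (v : Finset ℕ) : Prop :=
  ∃ (hv : v ∈ q.V) (hvM : v ⊆ q.M), NU K G P (q.nat v hv hvM) ∧ Beta K G (q.nat v hv hvM)

def Dec (q : St) : Prop :=
  (∃ x < q.h, x ∉ q.M ∧ (x ∈ G q.M ∨ x ∈ P (G q.M))) ∨
  (G q.M ⊆ (q.M : Set ℕ) ∧ ∀ r, Ext K q r → G r.M = G q.M) ∨
  (∃ v m, m < q.h ∧ m ∈ q.M ∧ m ∉ v ∧ Pers K G P q v)

variable {K G P}

theorem NU.mono {p q : St} (hp : NU K G P p) (e : Ext K p q) : NU K G P q :=
  fun r f => hp r (e.trans f)

theorem Beta.mono {p q : St} (hp : Beta K G p) (e : Ext K p q) : Beta K G q :=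
  fun r f => hp r (e.trans f)

theorem Pers.mono {q q' : St} {v : Finset ℕ} (h : Pers K G P q v) (e : Ext K q q') :
    Pers K G P q' v := by
  obtain ⟨hv, hvM, h1, h2⟩ := h
  have f := ext_nat e hv hvM (e.V_sub hv) (hvM.trans e.M_sub) (tr_eq_self (q.hV v hv))
  exact ⟨_, _, h1.mono f, h2.mono f⟩

theorem create (hK : ∀ (F : Finset (Finset ℕ)) (N : ℕ), ∃ a ≥ N, K a = F) (p : St) (hI : Inv p) :
    ∃ q m, Ext K p q ∧ Inv q ∧ p.M ⊆ q.M ∧ m ∈ q.M ∧ m ∉ p.M ∧ m < q.h ∧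
      ∃ (hv : p.M ∈ q.V) (hvM : p.M ⊆ q.M), Ext K p (q.nat p.M hv hvM) := by
  obtain ⟨a, ha, hKa⟩ := hK (insert p.M p.U) p.h
  have hB : Block K p.h p.V (insert p.M p.U) {a} := by
    intro x hx
    rw [mem_singleton] at hx
    subst hx
    refine ⟨ha, ?_, ?_, ?_⟩
    · rw [hKa, coe_insert]
      exact p.hchain.insert fun u hu _ => Or.inl (p.hMU u hu)
    · intro V hV
      rw [hKa] at hV
      have hVp : V ∈ p.V := by
        rcases mem_insert.1 hV with rfl | hV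
        · exact p.hM
        · exact p.hU V hV
      exact ⟨fun y hy => lt_of_lt_of_le (p.hV V hVp y hy) ha, mem_desc_of_mem p _ hVp⟩
    · intro U hU
      rw [tr_eq_empty (by simp), union_empty, hKa]
      exact hU
  have hh : p.h ≤ a + 1 := by omega
  have hH : ∀ x ∈ ({a} : Finset ℕ), x < a + 1 := by simp
  have hw := mem_desc_of_mem (K := K) p {a} p.hM
  have e := ext_add p {a} hB (a + 1) hh hH p.M hw
  have hv : p.M ∈ (p.add {a} hB (a + 1) hh hH p.M hw).V := Or.inl p.hM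
  refine ⟨p.add {a} hB (a + 1) hh hH p.M hw, a, e, hI.add _ _ _ _ _ _ _, e.M_sub, ?_, ?_, ?_, hv,
    e.M_sub, ext_nat' e hv e.M_sub (tr_eq_self (p.hV _ p.hM))⟩
  · exact mem_union_right _ (mem_singleton_self a)
  · exact fun h => absurd (p.hV _ p.hM a h) (not_lt.2 ha)
  · exact Nat.lt_succ_self a

theorem dec_dense (hK : ∀ (F : Finset (Finset ℕ)) (N : ℕ), ∃ a ≥ N, K a = F) (p : St)
    (hI : Inv p) : ∃ q, Ext K p q ∧ Inv q ∧ Dec K G P q := by
  by_cases hNU : NU K G P p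
  · by_cases hB : Beta K G p
    · obtain ⟨q, m, e, hIq, _, h2, h3, h4, hv, hvM, f⟩ := create hK p hI
      exact ⟨q, e, hIq, Or.inr (Or.inr ⟨p.M, m, h4, h2, h3, hv, hvM, hNU.mono f, hB.mono f⟩)⟩
    · unfold Beta at hB
      push Not at hB
      obtain ⟨q, e, hq⟩ := hB
      refine ⟨p.shrink q q.h le_rfl e, ext_shrink _ _ _ _ _, hI.shrink _ _ _,
        Or.inr (Or.inl ⟨(hNU q e).1, ?_⟩)⟩
      intro r f
      obtain ⟨r', f', hr'⟩ := lift_shrink p q e r f
      rw [← hr']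
      exact hq r' f'
  · unfold NU at hNU
    push Not at hNU
    obtain ⟨q, e, hq⟩ := hNU
    have : ∃ x, x ∉ q.M ∧ (x ∈ G q.M ∨ x ∈ P (G q.M)) := by
      by_contra hcon
      push Not at hcon
      apply hq
      constructor
      · intro x hx
        by_contra hxM
        exact (hcon x hxM).1 hx
      · intro x hx
        by_contra hxM
        exact (hcon x hxM).2 hx
    obtain ⟨x, hx, hx'⟩ := this
    refine ⟨p.shrink q (max q.h (x + 1)) (le_max_left _ _) e, ext_shrink _ _ _ _ _,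
      hI.shrink _ _ _, Or.inl ⟨x, ?_, hx, hx'⟩⟩
    exact lt_of_lt_of_le (Nat.lt_succ_self x) (le_max_right _ _)

theorem grow_dense (p : St) (hI : Inv p) (v : Finset ℕ) (hP : Pers K G P p v) :
    ∃ q, Ext K p q ∧ Inv q ∧ ∃ v', tr v' p.h = v ∧ Pers K G P q v' ∧ G v' ≠ G v := by
  obtain ⟨hv, hvM, h1, h2⟩ := hP
  obtain ⟨r, f, hr⟩ := h2 _ (ext_virt p v hv hvM)
  obtain ⟨H, hB, hH, hle, hVV, hVD, hUU, hM⟩ := f
  have hw : r.M ∈ Desc K p.h p.V H := hVD r.hM
  have hB' : Block K p.h p.V (insert p.M p.U) H := hB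
  have hM' : tr r.M p.h = v := hM
  have e := ext_add p H hB' r.h hle hH r.M hw
  have hv' : r.M ∈ (p.add H hB' r.h hle hH r.M hw).V := Or.inr (Or.inl rfl)
  have hvM' : r.M ⊆ (p.add H hB' r.h hle hH r.M hw).M := by
    intro x hx
    by_cases hxp : p.h ≤ x
    · exact mem_union_right _ (hw.2 x hx hxp).1
    · refine mem_union_left _ (hvM ?_)
      rw [← hM']
      exact mem_tr.2 ⟨hx, not_le.1 hxp⟩
  have g := ext_nat e hv hvM hv' hvM' hM'
  exact ⟨_, e, hI.add _ _ _ _ _ _ _, r.M, hM', ⟨hv', hvM', h1.mono g, h2.mono g⟩, hr⟩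

end requirement

/-- tasks -/
abbrev Task := Option (ℕ ⊕ ℕ × Finset ℕ)

variable (K) in
/-- what has to be achieved when a task is attended -/
def R (Γ Ψ : ℕ → Set ℕ → Set ℕ) : Task → St → St → Prop
  | none, p, q => ∃ m, m ∈ q.M ∧ m ∉ p.M
  | some (Sum.inl k), _, q => Dec K (Γ k) (Ψ k) q
  | some (Sum.inr (k, v)), p, q => Pers K (Γ k) (Ψ k) p v →
      ∃ v', tr v' p.h = v ∧ Pers K (Γ k) (Ψ k) q v' ∧ Γ k v' ≠ Γ k v

theorem R_dense (hK : ∀ (F : Finset (Finset ℕ)) (N : ℕ), ∃ a ≥ N, K a = F)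
    (Γ Ψ : ℕ → Set ℕ → Set ℕ) (t : Task) (p : St) (hI : Inv p) :
    ∃ q, Ext K p q ∧ Inv q ∧ R K Γ Ψ t p q := by
  match t with
  | none =>
    obtain ⟨q, m, e, hIq, _, h2, h3, _⟩ := create hK p hI
    exact ⟨q, e, hIq, m, h2, h3⟩
  | some (Sum.inl k) => exact dec_dense hK p hI
  | some (Sum.inr (k, v)) =>
    by_cases h : Pers K (Γ k) (Ψ k) p v
    · obtain ⟨q, e, hIq, hq⟩ := grow_dense p hI v h
      exact ⟨q, e, hIq, fun _ => hq⟩
    · exact ⟨p, Ext.refl p, hI, fun h' => absurd h' h⟩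

/-- initial state -/
def St.init : St where
  h := 0
  V := {∅}
  U := ∅
  M := ∅
  hV := by
    intro v hv x hx
    rw [Set.mem_singleton_iff] at hv
    subst hv
    simp at hx
  hU := by simp
  hchain := by simp
  hM := rfl
  hMU := by simp

theorem exists_seq (hK : ∀ (F : Finset (Finset ℕ)) (N : ℕ), ∃ a ≥ N, K a = F)
    (Γ Ψ : ℕ → Set ℕ → Set ℕ) : ∃ (p : ℕ → St) (f : ℕ → Task), p 0 = St.init ∧
      (∀ n, Ext K (p n) (p (n + 1))) ∧ (∀ n, Inv (p n)) ∧
      (∀ n, R K Γ Ψ (f n) (p n) (p (n + 1))) ∧ ∀ t N, ∃ n ≥ N, f n = t := by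
  obtain ⟨g, hg⟩ := exists_surjective_nat Task
  choose! nxt h1 h2 h3 using fun (t : Task) (p : St) (hI : Inv p) => R_dense hK Γ Ψ t p hI
  let f : ℕ → Task := fun n => g (Nat.unpair n).1
  let p : ℕ → St := fun n => Nat.rec St.init (fun n q => nxt (f n) q) n
  have hI0 : Inv St.init := by
    intro b hb
    simp [St.init] at hb
  have hI : ∀ n, Inv (p n) := by
    intro n
    induction n with
    | zero => exact hI0
    | succ n ih => exact h2 (f n) (p n) ih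
  refine ⟨p, f, rfl, fun n => h1 (f n) (p n) (hI n), hI, fun n => h3 (f n) (p n) (hI n), ?_⟩
  intro t N
  obtain ⟨m, rfl⟩ := hg t
  exact ⟨Nat.pair m N, Nat.right_le_pair m N, by simp [f]⟩

theorem main (hK : ∀ (F : Finset (Finset ℕ)) (N : ℕ), ∃ a ≥ N, K a = F)
    (Γ Ψ : ℕ → Set ℕ → Set ℕ) (hΓm : ∀ k, Monotone (Γ k)) (hΨm : ∀ k, Monotone (Ψ k))
    (hΓf : ∀ k X n, n ∈ Γ k X → ∃ F : Finset ℕ, (F : Set ℕ) ⊆ X ∧ n ∈ Γ k F)
    (hΨf : ∀ k X n, n ∈ Ψ k X → ∃ F : Finset ℕ, (F : Set ℕ) ⊆ X ∧ n ∈ Ψ k F) :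
    ∃ A : Set ℕ, A.Infinite ∧
      (∀ a ∈ A, IsChain (· ⊆ ·) (K a : Set (Finset ℕ)) ∧
        ∃ V₀ ∈ K a, ∀ x, x ∈ V₀ ↔ x ∈ A ∧ x < a) ∧
      (∀ b ∈ A, ∃ N, ∀ a ∈ A, N ≤ a → ∀ V ∈ K a, ∀ W ∈ K a, b ∈ V → b ∈ W →
        (∃ y ∈ A, y ≤ b ∧ y ∉ V) → (∃ y ∈ A, y ≤ b ∧ y ∉ W) → ∀ y ≤ b, (y ∈ V ↔ y ∈ W)) ∧
      ∀ k, ¬ (Γ k A ⊆ A ∧ (Γ k A).Infinite ∧ ∀ C ⊆ Γ k A, C.Infinite → Ψ k C = A) := by
  obtain ⟨p, f, hp0, hE, hI, hR, hf⟩ := exists_seq hK Γ Ψ
  have hmono : ∀ n m, n ≤ m → Ext K (p n) (p m) := by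
    intro n m hnm
    induction m, hnm using Nat.le_induction with
    | base => exact Ext.refl _
    | succ m _ ih => exact ih.trans (hE m)
  let A : Set ℕ := {x | ∃ n, x ∈ (p n).M}
  have hA : ∀ n x, x < (p n).h → (x ∈ A ↔ x ∈ (p n).M) := by
    intro n x hx
    refine ⟨?_, fun h => ⟨n, h⟩⟩
    rintro ⟨m, hm⟩
    rcases le_total n m with h | h
    · rw [← (hmono n m h).tr_M]
      exact mem_tr.2 ⟨hm, hx⟩
    · exact (hmono m n h).M_sub hm
  have hlt : ∀ n x, x ∈ (p n).M → x < (p n).h := fun n x hx => (p n).hV _ (p n).hM x hx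
  -- each finite subset of `A` lies in one of the main worlds
  have hfin : ∀ F : Finset ℕ, (F : Set ℕ) ⊆ A → ∃ n, F ⊆ (p n).M := by
    intro F
    induction F using Finset.induction_on with
    | empty => exact fun _ => ⟨0, by simp⟩
    | insert x F _ ih =>
      intro h
      rw [coe_insert, Set.insert_subset_iff] at h
      obtain ⟨n, hn⟩ := ih h.2
      obtain ⟨m, hm⟩ := h.1
      refine ⟨max n m, insert_subset ?_ ?_⟩
      · exact (hmono m _ (le_max_right _ _)).M_sub hm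
      · exact hn.trans (hmono n _ (le_max_left _ _)).M_sub
  -- birth of the elements of `A`
  have hbirth : ∀ a ∈ A, ∃ n, a ∉ (p n).M ∧ a ∈ (p (n + 1)).M := by
    intro a ha
    classical
    have hm := Nat.find_spec ha
    obtain ⟨n, hn⟩ : ∃ n, Nat.find ha = n + 1 := by
      refine Nat.exists_eq_succ_of_ne_zero fun h0 => ?_
      rw [h0, hp0] at hm
      simp [St.init] at hm
    refine ⟨n, Nat.find_min ha (by omega), ?_⟩
    rwa [hn] at hm
  have hge : ∀ n a, a ∈ A → a ∉ (p n).M → (p n).h ≤ a := by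
    intro n a ha hn
    by_contra hcon
    exact hn ((hA n a (not_le.1 hcon)).1 ha)
  refine ⟨A, ?_, ?_, ?_, ?_⟩
  · -- infinite
    intro hAfin
    obtain ⟨N, hN⟩ := hfin hAfin.toFinset (by simp)
    obtain ⟨n, hn, hfn⟩ := hf none N
    have h1 := hR n
    rw [hfn] at h1
    obtain ⟨m, hm, hm'⟩ := h1
    exact hm' ((hmono N n hn).M_sub (hN (by simpa using ⟨n + 1, hm⟩)))
  · intro a ha
    obtain ⟨n, h1, h2⟩ := hbirth a ha
    obtain ⟨H, hB, hH, hle, hVV, hVD, hUU, hM⟩ := hE n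
    obtain ⟨h3, h4⟩ := (hVD (p (n + 1)).hM).2 a h2 (hge n a ha h1)
    refine ⟨(hB a h3).2.1, _, h4, fun x => ?_⟩
    rw [mem_tr]
    refine ⟨fun h => ⟨⟨n + 1, h.1⟩, h.2⟩, fun h => ⟨?_, h.2⟩⟩
    exact (hA (n + 1) x (h.2.trans (hlt _ a h2))).1 h.1
  · rintro b ⟨n, hb⟩
    refine ⟨(p n).h, fun a ha hna V hV W hW hbV hbW hV' hW' => ?_⟩
    obtain ⟨m, h1, h2⟩ := hbirth a ha
    have hnm : n ≤ m := by
      by_contra hcon
      have : m + 1 ≤ n := by omega
      exact absurd (hlt n a ((hmono _ _ this).M_sub h2)) (not_lt.2 hna)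
    have hbm : b ∈ (p m).M := (hmono n m hnm).M_sub hb
    have hbh : b + 1 ≤ (p m).h := hlt m b hbm
    obtain ⟨H, hB, hH, hle, hVV, hVD, hUU, hM⟩ := hE m
    obtain ⟨h3, h4⟩ := (hVD (p (m + 1)).hM).2 a h2 (hge m a ha h1)
    have h5 : ∀ V ∈ K a, b ∈ V → (∃ y ∈ A, y ≤ b ∧ y ∉ V) →
        ¬ tr (p m).M (b + 1) ⊆ tr V (p m).h := by
      rintro V _ _ ⟨y, hy, hyb, hyV⟩ hcon
      have h6 : y ∈ (p m).M := (hA m y (by omega)).1 hy
      exact hyV (mem_tr.1 (hcon (mem_tr.2 ⟨h6, by omega⟩))).1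
    have h7 := hI m b hbm _ ((hB a h3).2.2.1 V hV).2.1 _ ((hB a h3).2.2.1 W hW).2.1
      (mem_tr.2 ⟨hbV, hbh⟩) (mem_tr.2 ⟨hbW, hbh⟩) (h5 V hV hbV hV') (h5 W hW hbW hW')
    rw [tr_tr_of_le _ hbh, tr_tr_of_le _ hbh] at h7
    intro y hy
    have h8 := congrArg (fun S => y ∈ S) h7
    simp only [mem_tr, eq_iff_iff] at h8
    constructor
    · exact fun h => (h8.1 ⟨h, by omega⟩).1
    · exact fun h => (h8.2 ⟨h, by omega⟩).1
  · -- requirements
    rintro k ⟨hsub, hinf, hunif⟩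
    obtain ⟨n₀, -, hn₀⟩ := hf (some (Sum.inl k)) 0
    have hD : Dec K (Γ k) (Ψ k) (p (n₀ + 1)) := by
      have := hR n₀
      rw [hn₀] at this
      exact this
    have hMA : ∀ n, ((p n).M : Set ℕ) ⊆ A := fun n x hx => ⟨n, hx⟩
    rcases hD with ⟨x, hx, hxM, hx'⟩ | ⟨h1, h2⟩ | ⟨v, m, hmh, hmM, hmv, hP⟩
    · have hxA : x ∉ A := fun h => hxM ((hA _ x hx).1 h)
      rcases hx' with h | h
      · exact hxA (hsub (hΓm k (hMA _) h))
      · have h3 := hΨm k (hΓm k (hMA (n₀ + 1))) h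
        rw [hunif _ subset_rfl hinf] at h3
        exact hxA h3
    · apply hinf
      refine (finite_toSet (p (n₀ + 1)).M).subset ?_
      intro x hx
      obtain ⟨F, hF, hxF⟩ := hΓf k A x hx
      obtain ⟨n, hn⟩ := hfin F hF
      have h3 : x ∈ Γ k ((p (max n (n₀ + 1))).M : Set ℕ) := by
        refine hΓm k ?_ hxF
        exact_mod_cast hn.trans (hmono n _ (le_max_left _ _)).M_sub
      rw [h2 _ (hmono _ _ (le_max_right _ _))] at h3
      exact h1 h3
    · -- growth area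
      have hstep : ∀ (n : ℕ) (v : Finset ℕ), Pers K (Γ k) (Ψ k) (p n) v →
          ∃ n' v', n ≤ n' ∧ Pers K (Γ k) (Ψ k) (p n') v' ∧ tr v' (p n).h = v ∧
            Γ k v' ≠ Γ k v := by
        intro n v hP
        obtain ⟨m, hm, hfm⟩ := hf (some (Sum.inr (k, v))) n
        have h1 := hR m
        rw [hfm] at h1
        obtain ⟨v', h2, h3, h4⟩ := h1 (hP.mono (hmono n m hm))
        refine ⟨m + 1, v', by omega, h3, ?_, h4⟩
        obtain ⟨hv, _⟩ := hP
        have h5 := tr_eq_self ((p n).hV v hv)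
        rw [← h2, tr_tr_of_le _ (hmono n m hm).h_le] at h5
        rw [h5, h2]
      choose! N' v' g1 g2 g3 g4 using hstep
      let s : ℕ → ℕ × Finset ℕ := fun i =>
        Nat.rec (n₀ + 1, v) (fun _ q => (N' q.1 q.2, v' q.1 q.2)) i
      have hs0 : s 0 = (n₀ + 1, v) := rfl
      have hsS : ∀ i, s (i + 1) = (N' (s i).1 (s i).2, v' (s i).1 (s i).2) := fun i => rfl
      have hsP : ∀ i, Pers K (Γ k) (Ψ k) (p (s i).1) (s i).2 := by
        intro i
        induction i with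
        | zero => exact hP
        | succ i ih => rw [hsS]; exact g2 _ _ ih
      have hsle : ∀ i, n₀ + 1 ≤ (s i).1 := by
        intro i
        induction i with
        | zero => exact le_rfl
        | succ i ih => rw [hsS]; exact ih.trans (g1 _ _ (hsP i))
      have hstr : ∀ i, tr (s i).2 (p (n₀ + 1)).h = v := by
        intro i
        induction i with
        | zero => exact tr_eq_self ((p (n₀ + 1)).hV v hP.1)
        | succ i ih =>
          have h5 := g3 _ _ (hsP i)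
          have h6 := tr_tr_of_le (v' (s i).1 (s i).2) (hmono _ _ (hsle i)).h_le
          rw [h5, ih] at h6
          exact h6.symm
      have hssub : ∀ i, (s i).2 ⊆ (s (i + 1)).2 := by
        intro i
        rw [hsS]
        conv_lhs => rw [← g3 _ _ (hsP i)]
        exact tr_subset _ _
      have hsmono : Monotone fun i => ((s i).2 : Set ℕ) :=
        monotone_nat_of_le_succ fun i => by exact_mod_cast hssub i
      have hΓs : Monotone fun i => Γ k ((s i).2 : Set ℕ) := fun i j hij => hΓm k (hsmono hij)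
      have hvA : ∀ i, ((s i).2 : Set ℕ) ⊆ A := by
        intro i
        obtain ⟨_, hvM, _⟩ := hsP i
        exact subset_trans (by exact_mod_cast hvM) (hMA (s i).1)
      let C : Set ℕ := ⋃ i, Γ k ((s i).2 : Set ℕ)
      have hCsub : C ⊆ Γ k A := Set.iUnion_subset fun i => hΓm k (hvA i)
      have hCfin : ∀ F : Finset ℕ, (F : Set ℕ) ⊆ C → ∃ i, (F : Set ℕ) ⊆ Γ k ((s i).2 : Set ℕ) := by
        intro F
        induction F using Finset.induction_on with
        | empty => exact fun _ => ⟨0, by simp⟩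
        | insert x F _ ih =>
          intro h
          rw [coe_insert, Set.insert_subset_iff] at h
          obtain ⟨i, hi⟩ := ih h.2
          obtain ⟨j, hj⟩ := Set.mem_iUnion.1 h.1
          refine ⟨max i j, ?_⟩
          rw [coe_insert, Set.insert_subset_iff]
          exact ⟨hΓs (le_max_right i j) hj, hi.trans (hΓs (le_max_left i j))⟩
      have hCinf : C.Infinite := by
        intro hCf
        obtain ⟨i, hi⟩ := hCfin hCf.toFinset (by simp)
        rw [Set.Finite.coe_toFinset] at hi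
        apply g4 _ _ (hsP i)
        apply Set.Subset.antisymm
        · exact (Set.subset_iUnion (fun i => Γ k ((s i).2 : Set ℕ)) (i + 1)).trans hi
        · exact hΓs (Nat.le_succ i)
      have hmA : m ∈ Ψ k C := by
        rw [hunif C hCsub hCinf]
        exact ⟨n₀ + 1, hmM⟩
      obtain ⟨F, hF, hmF⟩ := hΨf k C m hmA
      obtain ⟨i, hi⟩ := hCfin F hF
      obtain ⟨hv, hvM, hNU, _⟩ := hsP i
      have h6 : m ∈ (s i).2 := (hNU _ (Ext.refl _)).2 (hΨm k hi hmF)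
      have h7 : m ∈ tr (s i).2 (p (n₀ + 1)).h := mem_tr.2 ⟨h6, hmh⟩
      rw [hstr i] at h7
      exact hmv h7

end Pool.Agent.H61.Intro
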